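import Mathlib
import Pool.Agent.W492.KC.Defs

/-!
# Kimura's nilpotence theorem
-/

set_option autoImplicit false
set_option linter.unusedSectionVars false

open CategoryTheory MonoidalCategory

namespace Pool.Agent.W225.KC

open Pool.Agent.W492.MT (tpow tr)
open Pool.Agent.W492.KC

universe v u

section swp

variable {T : Type u} [Category.{v} T] [MonoidalCategory T] [SymmetricCategory T]

theorem swp_swp (X Y : T) : swp X Y ≫ swp X Y = 𝟙 _ := by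
  simp only [swp, Category.assoc, Iso.hom_inv_id_assoc]
  rw [← comp_whiskerRight_assoc, SymmetricCategory.symmetry]
  simp

theorem swp_nat (X : T) {Y Z : T} (b : Y ⟶ Z) :
    swp X Y ≫ (X ◁ (X ◁ b)) = (X ◁ (X ◁ b)) ≫ swp X Z := by
  simp only [swp, Category.assoc]
  rw [← associator_naturality_right, ← whisker_exchange_assoc,
    associator_inv_naturality_right_assoc]

theorem swp_left {X : T} (g : X ⟶ X) (Y : T) :
    (g ▷ (X ⊗ Y)) ≫ swp X Y = swp X Y ≫ (X ◁ (g ▷ Y)) := by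
  simp only [swp, Category.assoc]
  rw [← associator_naturality_middle, ← comp_whiskerRight_assoc,
    ← BraidedCategory.braiding_naturality_left, comp_whiskerRight_assoc,
    associator_inv_naturality_left_assoc]

theorem swp_right {X : T} (g : X ⟶ X) (Y : T) :
    swp X Y ≫ (g ▷ (X ⊗ Y)) = (X ◁ (g ▷ Y)) ≫ swp X Y := by
  have h : swp X Y ≫ ((g ▷ (X ⊗ Y)) ≫ swp X Y) ≫ swp X Y =
      swp X Y ≫ (swp X Y ≫ (X ◁ (g ▷ Y))) ≫ swp X Y := by rw [swp_left]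
  simp only [Category.assoc, swp_swp, Category.comp_id] at h
  rw [h, ← Category.assoc, swp_swp, Category.id_comp]

theorem swp_braid (X Y : T) :
    swp X (X ⊗ Y) ≫ (X ◁ swp X Y) ≫ swp X (X ⊗ Y) =
      (X ◁ swp X Y) ≫ swp X (X ⊗ Y) ≫ (X ◁ swp X Y) := by
  have h := BraidedCategory.yang_baxter X X X
  calc swp X (X ⊗ Y) ≫ (X ◁ swp X Y) ≫ swp X (X ⊗ Y)
      = 𝟙 _ ⊗≫ ((α_ X X X).inv ≫ (β_ X X).hom ▷ X ≫ (α_ X X X).hom ≫ X ◁ (β_ X X).hom ≫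
          (α_ X X X).inv ≫ (β_ X X).hom ▷ X ≫ (α_ X X X).hom) ▷ Y ⊗≫ 𝟙 _ := by
        simp only [swp]
        monoidal
    _ = 𝟙 _ ⊗≫ (X ◁ (β_ X X).hom ≫ (α_ X X X).inv ≫ (β_ X X).hom ▷ X ≫
          (α_ X X X).hom ≫ X ◁ (β_ X X).hom) ▷ Y ⊗≫ 𝟙 _ := by rw [h]
    _ = _ := by
        simp only [swp]
        monoidal

end swp

section pt

variable {T : Type u} [Category.{v} T] [MonoidalCategory T] [SymmetricCategory T]
  [RightRigidCategory T]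

/-- The partial trace over the first factor. -/
def pt (X : T) {A B : T} (g : X ⊗ A ⟶ X ⊗ B) : A ⟶ B :=
  (λ_ A).inv ≫ ((η_ X Xᘁ ≫ (β_ X Xᘁ).hom) ▷ A) ≫ (α_ _ _ _).hom ≫ (Xᘁ ◁ g) ≫
    (α_ _ _ _).inv ≫ (ε_ X Xᘁ ▷ B) ≫ (λ_ B).hom

theorem pt_left (X : T) {A A' B : T} (a : A ⟶ A') (g : X ⊗ A' ⟶ X ⊗ B) :
    pt X ((X ◁ a) ≫ g) = a ≫ pt X g := by
  simp only [pt]
  rw [leftUnitor_inv_naturality_assoc, whisker_exchange_assoc, associator_naturality_right_assoc,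
    MonoidalCategory.whiskerLeft_comp, Category.assoc]

theorem pt_right (X : T) {A B B' : T} (b : B ⟶ B') (g : X ⊗ A ⟶ X ⊗ B) :
    pt X (g ≫ (X ◁ b)) = pt X g ≫ b := by
  simp only [pt, Category.assoc]
  rw [← leftUnitor_naturality, ← whisker_exchange_assoc, MonoidalCategory.whiskerLeft_comp,
    Category.assoc, associator_inv_naturality_right_assoc]

theorem pt_whisker (X : T) (g : X ⟶ X) (A : T) :
    pt X (g ▷ A) = (λ_ A).inv ≫ (tr g ▷ A) ≫ (λ_ A).hom := by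
  have h : tr g = (η_ X Xᘁ ≫ (β_ X Xᘁ).hom) ≫ (Xᘁ ◁ g) ≫ ε_ X Xᘁ := by
    simp only [tr, Category.assoc]
    rw [BraidedCategory.braiding_naturality_left_assoc]
  rw [h, pt, ← associator_naturality_middle_assoc, Iso.hom_inv_id_assoc]
  simp only [comp_whiskerRight, Category.assoc]

theorem pt_swp (X Y : T) : pt X (swp X Y) = 𝟙 _ := by
  have h1 : (λ_ X).inv ≫ ((η_ X Xᘁ ≫ (β_ X Xᘁ).hom) ▷ X) ≫ (α_ _ _ _).hom ≫
      (Xᘁ ◁ (β_ X X).hom) ≫ (α_ _ _ _).inv ≫ (ε_ X Xᘁ ▷ X) ≫ (λ_ X).hom = 𝟙 X := by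
    have h2 := BraidedCategory.hexagon_forward X Xᘁ X
    rw [comp_whiskerRight_assoc]
    have h3 : (β_ X Xᘁ).hom ▷ X ≫ (α_ Xᘁ X X).hom ≫ Xᘁ ◁ (β_ X X).hom ≫ (α_ Xᘁ X X).inv ≫
        (ε_ X Xᘁ ▷ X) ≫ (λ_ X).hom = (α_ X Xᘁ X).hom ≫ (X ◁ ε_ X Xᘁ) ≫ (ρ_ X).hom := by
      have h4 : (β_ X Xᘁ).hom ▷ X ≫ (α_ Xᘁ X X).hom ≫ Xᘁ ◁ (β_ X X).hom ≫ (α_ Xᘁ X X).inv =
          (α_ X Xᘁ X).hom ≫ (β_ X (Xᘁ ⊗ X)).hom := by
        rw [← cancel_mono (α_ Xᘁ X X).hom]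
        simp only [Category.assoc, Iso.inv_hom_id, Category.comp_id]
        exact h2.symm
      have h5 : (β_ X Xᘁ).hom ▷ X ≫ (α_ Xᘁ X X).hom ≫ Xᘁ ◁ (β_ X X).hom ≫ (α_ Xᘁ X X).inv ≫
          (ε_ X Xᘁ ▷ X) ≫ (λ_ X).hom = ((β_ X Xᘁ).hom ▷ X ≫ (α_ Xᘁ X X).hom ≫
          Xᘁ ◁ (β_ X X).hom ≫ (α_ Xᘁ X X).inv) ≫ (ε_ X Xᘁ ▷ X) ≫ (λ_ X).hom := by
        simp only [Category.assoc]
      rw [h5, h4, Category.assoc, ← BraidedCategory.braiding_naturality_right_assoc]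
      simp
    rw [h3, ExactPairing.evaluation_coevaluation_assoc]
    simp
  calc pt X (swp X Y)
      = ((λ_ X).inv ≫ ((η_ X Xᘁ ≫ (β_ X Xᘁ).hom) ▷ X) ≫ (α_ _ _ _).hom ≫
      (Xᘁ ◁ (β_ X X).hom) ≫ (α_ _ _ _).inv ≫ (ε_ X Xᘁ ▷ X) ≫ (λ_ X).hom) ▷ Y := by
        simp only [pt, swp]
        monoidal
    _ = _ := by rw [h1]; simp

theorem pt_swp_g {X : T} (g : X ⟶ X) (Y : T) : pt X (swp X Y ≫ (g ▷ (X ⊗ Y))) = g ▷ Y := by
  rw [swp_right, pt_left, pt_swp, Category.comp_id]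

variable [Preadditive T] [MonoidalPreadditive T]

theorem pt_add (X : T) {A B : T} (g h : X ⊗ A ⟶ X ⊗ B) : pt X (g + h) = pt X g + pt X h := by
  simp only [pt, MonoidalPreadditive.whiskerLeft_add, Preadditive.add_comp, Preadditive.comp_add]

/-- The partial trace as a homomorphism. -/
def ptH (X : T) (A B : T) : (X ⊗ A ⟶ X ⊗ B) →+ (A ⟶ B) := AddMonoidHom.mk' (pt X) (pt_add X)

theorem ptH_apply (X : T) {A B : T} (g : X ⊗ A ⟶ X ⊗ B) : ptH X A B g = pt X g := rfl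

theorem pt_whisker_zero {X : T} (g : X ⟶ X) (hg : tr g = 0) (A : T) : pt X (g ▷ A) = 0 := by
  rw [pt_whisker, hg, MonoidalPreadditive.zero_whiskerRight]
  simp

end pt

section sym

variable {T : Type u} [Category.{v} T] [MonoidalCategory T] [SymmetricCategory T]
  [Preadditive T] [MonoidalPreadditive T]

theorem ring_key1 {R : Type*} [Ring R] (s t G : R) (hs : s * s = 1)
    (hst : s * (t * s) = t * (s * t)) (hsG : G * s = s * G)
    (ih : t * (G * (1 + t * G)) = G * (1 + t * G)) :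
    s * ((1 + t * G) * (1 + s * (1 + t * G))) = (1 + t * G) * (1 + s * (1 + t * G)) := by
  linear_combination (norm := noncomm_ring) hs * (1 + t * G) + s * t * hsG * (1 + t * G) -
    t * hsG * (1 + t * G) + hst * (G + G * t * G) + t * s * ih

theorem ring_key2 {R : Type*} [Ring R] (s t G : R) (hs : s * s = 1)
    (hst : s * (t * s) = t * (s * t)) (hsG : G * s = s * G)
    (ih : t * (G * (1 - t * G)) = - (G * (1 - t * G))) :
    s * ((1 - t * G) * (1 - s * (1 - t * G))) = - ((1 - t * G) * (1 - s * (1 - t * G))) := by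
  linear_combination (norm := noncomm_ring) (-1) * hs * (1 - t * G) + s * t * hsG * (1 - t * G) +
    t * hsG * (1 - t * G) + hst * (G - G * t * G) + t * s * ih

theorem wl_zsmul (X : T) {Y Z : T} (m : ℤ) (g : Y ⟶ Z) : X ◁ (m • g) = m • (X ◁ g) :=
  ((tensoringLeft T).obj X).map_zsmul (f := g) (r := m)

theorem gen1 {X Y : T} (ε : ℤ) (a gi gi' : X ⊗ Y ⟶ X ⊗ Y) (b : Y ⟶ Y)
    (h1 : a = (X ◁ b) ≫ gi) (h2 : a = gi' ≫ (X ◁ b)) :
    (X ◁ a) ≫ (𝟙 (X ⊗ X ⊗ Y) + ε • (swp X Y ≫ (X ◁ gi))) =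
      (𝟙 (X ⊗ X ⊗ Y) + ε • ((X ◁ gi') ≫ swp X Y)) ≫ (X ◁ a) := by
  have h3 : (X ◁ a) ≫ swp X Y ≫ (X ◁ gi) = (X ◁ gi') ≫ swp X Y ≫ (X ◁ a) := by
    conv_lhs => rw [h2, MonoidalCategory.whiskerLeft_comp, Category.assoc]
    rw [← Category.assoc (X ◁ X ◁ b), ← swp_nat, Category.assoc,
      ← MonoidalCategory.whiskerLeft_comp, ← h1]
  rw [Preadditive.comp_add, Preadditive.add_comp, Category.comp_id, Category.id_comp,
    Preadditive.comp_zsmul, Preadditive.zsmul_comp, h3, Category.assoc]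

theorem gen2 {X Y : T} (ε : ℤ) (hε : ε * ε = 1) (gi' : X ⊗ Y ⟶ X ⊗ Y)
    (g2 : X ⊗ X ⊗ Y ⟶ X ⊗ X ⊗ Y) (hg2 : g2 = 𝟙 (X ⊗ X ⊗ Y) + ε • ((X ◁ gi') ≫ swp X Y))
    (ih : (g2 ≫ (X ◁ gi')) ≫ swp X Y = ε • (g2 ≫ (X ◁ gi'))) :
    ((𝟙 (X ⊗ X ⊗ X ⊗ Y) + ε • ((X ◁ g2) ≫ swp X (X ⊗ Y))) ≫ (X ◁ g2)) ≫ swp X (X ⊗ Y) =
      ε • ((𝟙 (X ⊗ X ⊗ X ⊗ Y) + ε • ((X ◁ g2) ≫ swp X (X ⊗ Y))) ≫ (X ◁ g2)) := by
  have hs : swp X (X ⊗ Y) ≫ swp X (X ⊗ Y) = 𝟙 _ := swp_swp X (X ⊗ Y)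
  have hst := swp_braid X Y
  have hsG : swp X (X ⊗ Y) ≫ (X ◁ (X ◁ gi')) = (X ◁ (X ◁ gi')) ≫ swp X (X ⊗ Y) :=
    swp_nat X gi'
  have ih' := congrArg (fun z => X ◁ z) ih
  have hG : X ◁ g2 = 𝟙 (X ⊗ X ⊗ X ⊗ Y) + ε • ((X ◁ (X ◁ gi')) ≫ (X ◁ swp X Y)) := by
    rw [hg2, MonoidalPreadditive.whiskerLeft_add, MonoidalCategory.whiskerLeft_id, wl_zsmul,
      MonoidalCategory.whiskerLeft_comp]
  simp only [MonoidalCategory.whiskerLeft_comp, wl_zsmul, hG] at ih'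
  rw [hG]
  rcases Int.eq_one_or_neg_one_of_mul_eq_one hε with h | h
  · subst h
    simp only [one_smul] at ih' ⊢
    exact ring_key1 (R := End (X ⊗ X ⊗ X ⊗ Y)) (swp X (X ⊗ Y)) (X ◁ swp X Y) (X ◁ (X ◁ gi')) hs
      ((Category.assoc _ _ _).trans hst |>.trans (Category.assoc _ _ _).symm) hsG ih'
  · subst h
    simp only [neg_smul, one_smul, ← sub_eq_add_neg] at ih' ⊢
    exact ring_key2 (R := End (X ⊗ X ⊗ X ⊗ Y)) (swp X (X ⊗ Y)) (X ◁ swp X Y) (X ◁ (X ◁ gi')) hs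
      ((Category.assoc _ _ _).trans hst |>.trans (Category.assoc _ _ _).symm) hsG ih'

theorem gen3 {X Y : T} (ε : ℤ) (a2 gi2 : X ⊗ X ⊗ Y ⟶ X ⊗ X ⊗ Y) (a1 gi1 : X ⊗ Y ⟶ X ⊗ Y)
    (b : Y ⟶ Y) (h2 : a2 = gi2 ≫ (X ◁ a1)) (h1 : a1 = gi1 ≫ (X ◁ b))
    (h : (gi2 ≫ (X ◁ gi1)) ≫ swp X Y = ε • (gi2 ≫ (X ◁ gi1))) :
    a2 ≫ swp X Y = ε • a2 := by
  have h3 : a2 = (gi2 ≫ (X ◁ gi1)) ≫ (X ◁ (X ◁ b)) := by
    rw [h2, h1, MonoidalCategory.whiskerLeft_comp, Category.assoc]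
  rw [h3, Category.assoc, ← swp_nat, ← Category.assoc, h, Preadditive.zsmul_comp]

theorem gen4 {X Y : T} (ε : ℤ) (hε : ε * ε = 1) (g : X ⟶ X) (a2 gi2 : X ⊗ X ⊗ Y ⟶ X ⊗ X ⊗ Y)
    (a1 gi D1 : X ⊗ Y ⟶ X ⊗ Y) (hs : a2 ≫ swp X Y = ε • a2) (hF : a2 = gi2 ≫ (X ◁ a1))
    (ih : a1 ≫ (g ▷ Y) ≫ gi = a1 ≫ D1) :
    a2 ≫ (g ▷ (X ⊗ Y)) ≫ (𝟙 (X ⊗ X ⊗ Y) + ε • (swp X Y ≫ (X ◁ gi))) =
      a2 ≫ ((g ▷ (X ⊗ Y)) + (X ◁ D1)) := by
  have h1 : a2 ≫ (g ▷ (X ⊗ Y)) ≫ swp X Y ≫ (X ◁ gi) = ε • (a2 ≫ (X ◁ D1)) := by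
    calc a2 ≫ (g ▷ (X ⊗ Y)) ≫ swp X Y ≫ (X ◁ gi)
        = a2 ≫ ((g ▷ (X ⊗ Y)) ≫ swp X Y) ≫ (X ◁ gi) := by rw [Category.assoc]
      _ = (a2 ≫ swp X Y) ≫ (X ◁ ((g ▷ Y) ≫ gi)) := by
          rw [swp_left, MonoidalCategory.whiskerLeft_comp]
          simp only [Category.assoc]
      _ = ε • (a2 ≫ (X ◁ ((g ▷ Y) ≫ gi))) := by rw [hs, Preadditive.zsmul_comp]
      _ = ε • (gi2 ≫ (X ◁ (a1 ≫ (g ▷ Y) ≫ gi))) := by
          rw [hF, Category.assoc, ← MonoidalCategory.whiskerLeft_comp]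
      _ = ε • (a2 ≫ (X ◁ D1)) := by
          rw [ih, hF, Category.assoc, ← MonoidalCategory.whiskerLeft_comp]
  rw [Preadditive.comp_add, Preadditive.comp_add, Preadditive.comp_add, Category.comp_id,
    Preadditive.comp_zsmul, Preadditive.comp_zsmul, h1, smul_smul, hε, one_smul]

theorem gen5 [RightRigidCategory T] {X Y : T} (ε : ℤ) (g : X ⟶ X) (hg : tr g = 0)
    (a1 gi c : X ⊗ Y ⟶ X ⊗ Y) :
    pt X (((X ◁ a1) ≫ (𝟙 (X ⊗ X ⊗ Y) + ε • (swp X Y ≫ (X ◁ gi)))) ≫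
      (g ▷ (X ⊗ Y)) ≫ (X ◁ c)) = ε • ((a1 ≫ (g ▷ Y) ≫ gi) ≫ c) := by
  have h1 : ((X ◁ a1) ≫ (𝟙 (X ⊗ X ⊗ Y) + ε • (swp X Y ≫ (X ◁ gi)))) ≫
      (g ▷ (X ⊗ Y)) ≫ (X ◁ c) = (X ◁ a1) ≫ ((g ▷ (X ⊗ Y)) ≫ (X ◁ c) +
        ε • ((swp X Y ≫ (g ▷ (X ⊗ Y))) ≫ (X ◁ (gi ≫ c)))) := by
    rw [Category.assoc, Preadditive.add_comp, Category.id_comp, Preadditive.zsmul_comp,
      MonoidalCategory.whiskerLeft_comp]
    simp only [Category.assoc]
    rw [whisker_exchange_assoc]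
  rw [h1, pt_left, pt_add, pt_right, pt_whisker_zero g hg, Limits.zero_comp, zero_add,
    ← ptH_apply, map_zsmul, ptH_apply, pt_right, pt_swp_g, Preadditive.comp_zsmul]
  simp only [Category.assoc]

theorem gen2_base {X Y : T} (ε : ℤ) (hε : ε * ε = 1) :
    ((𝟙 (X ⊗ X ⊗ Y) + ε • ((X ◁ 𝟙 (X ⊗ Y)) ≫ swp X Y)) ≫ (X ◁ 𝟙 (X ⊗ Y))) ≫ swp X Y =
      ε • ((𝟙 (X ⊗ X ⊗ Y) + ε • ((X ◁ 𝟙 (X ⊗ Y)) ≫ swp X Y)) ≫ (X ◁ 𝟙 (X ⊗ Y))) := by
  rw [MonoidalCategory.whiskerLeft_id, Category.id_comp, Category.comp_id,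
    Preadditive.add_comp, Preadditive.zsmul_comp, swp_swp, Category.id_comp, smul_add, smul_smul,
    hε, one_smul, add_comm]

theorem gen6 {X Y : T} (g h : X ⟶ X) (D t : Y ⟶ Y) (n : ℕ) (t' : ℕ → (Y ⟶ Y))
    (F : ℕ → (X ⊗ Y ⟶ X ⊗ Y)) (hF0 : F 0 = ((g ≫ h) ▷ Y) ≫ (X ◁ t))
    (hFs : ∀ i, F (i + 1) = (h ▷ Y) ≫ (X ◁ t' i)) (ih : D ≫ t = ∑ i ∈ Finset.range n, t' i) :
    ((g ▷ Y) + (X ◁ D)) ≫ (h ▷ Y) ≫ (X ◁ t) = ∑ i ∈ Finset.range (n + 1), F i := by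
  have h1 : (X ◁ D) ≫ (h ▷ Y) ≫ (X ◁ t) = (h ▷ Y) ≫ (X ◁ (D ≫ t)) := by
    rw [whisker_exchange_assoc, MonoidalCategory.whiskerLeft_comp]
  rw [Preadditive.add_comp, h1, ih, Finset.sum_range_succ', hF0, comp_whiskerRight,
    Category.assoc, add_comm, whiskerLeft_sum, Preadditive.comp_sum]
  congr 1
  exact Finset.sum_congr rfl fun i _ => (hFs i).symm

/-- The mirror image of `gins`. -/
def gins' (ε : ℤ) (X : T) : ∀ n : ℕ, X ⊗ tpow X n ⟶ X ⊗ tpow X n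
  | 0 => 𝟙 _
  | n + 1 => 𝟙 _ + ε • ((X ◁ gins' ε X n) ≫ swp X (tpow X n))

/-- `gsym ε X (n + 1)`. -/
def gs (ε : ℤ) (X : T) (n : ℕ) : X ⊗ tpow X n ⟶ X ⊗ tpow X n := gsym ε X (n + 1)

theorem gs_eq (ε : ℤ) (X : T) (n : ℕ) : gs ε X n = (X ◁ gsym ε X n) ≫ gins ε X n := rfl

/-- `gsym` is the product of its mirror images too. -/
theorem gs_eq' (ε : ℤ) (X : T) (n : ℕ) : gs ε X n = gins' ε X n ≫ (X ◁ gsym ε X n) := by
  induction n with
  | zero =>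
    have h : (X ◁ 𝟙 (𝟙_ T)) ≫ 𝟙 (X ⊗ 𝟙_ T) = 𝟙 (X ⊗ 𝟙_ T) ≫ (X ◁ 𝟙 (𝟙_ T)) := by
      rw [Category.comp_id, Category.id_comp]
    exact h
  | succ n ih =>
    exact gen1 ε (gs ε X n) (gins ε X n) (gins' ε X n) (gsym ε X n) (gs_eq ε X n) ih

theorem gins'_key (ε : ℤ) (hε : ε * ε = 1) (X : T) (n : ℕ) :
    (gins' ε X (n + 1) ≫ (X ◁ gins' ε X n)) ≫ swp X (tpow X n) =
      ε • (gins' ε X (n + 1) ≫ (X ◁ gins' ε X n)) := by
  induction n with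
  | zero => exact gen2_base (X := X) (Y := 𝟙_ T) ε hε
  | succ n ih => exact gen2 ε hε (gins' ε X n) (gins' ε X (n + 1)) rfl ih

theorem gs_swp (ε : ℤ) (hε : ε * ε = 1) (X : T) (n : ℕ) :
    gs ε X (n + 1) ≫ swp X (tpow X n) = ε • gs ε X (n + 1) :=
  gen3 ε (gs ε X (n + 1)) (gins' ε X (n + 1)) (gs ε X n) (gins' ε X n) (gsym ε X n)
    (gs_eq' ε X (n + 1)) (gs_eq' ε X n) (gins'_key ε hε X n)

/-- The sum of the operators `g` on the factors. -/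
def Dd {X : T} (g : X ⟶ X) : ∀ n : ℕ, tpow X n ⟶ tpow X n
  | 0 => 0
  | n + 1 => (g ▷ tpow X n) + (X ◁ Dd g n)

/-- `Dd g (n + 1)`. -/
def Ds {X : T} (g : X ⟶ X) (n : ℕ) : X ⊗ tpow X n ⟶ X ⊗ tpow X n := Dd g (n + 1)

theorem gs_D (ε : ℤ) (hε : ε * ε = 1) {X : T} (g : X ⟶ X) (n : ℕ) :
    gs ε X n ≫ (g ▷ tpow X n) ≫ gins ε X n = gs ε X n ≫ Ds g n := by
  induction n with
  | zero =>
    have h : (g ▷ 𝟙_ T) ≫ 𝟙 (X ⊗ 𝟙_ T) = (g ▷ 𝟙_ T) + (X ◁ (0 : 𝟙_ T ⟶ 𝟙_ T)) := by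
      rw [Category.comp_id, MonoidalPreadditive.whiskerLeft_zero, add_zero]
    exact congrArg (fun z => gs ε X 0 ≫ z) h
  | succ n ih =>
    exact gen4 ε hε g (gs ε X (n + 1)) (gins' ε X (n + 1)) (gs ε X n) (gins ε X n) (Ds g n)
      (gs_swp ε hε X n) (gs_eq' ε X (n + 1)) ih

/-- The tensor product of the powers `f ^ a i`. -/
def tens {X : T} (f : End X) : ∀ (n : ℕ) (_ : ℕ → ℕ), tpow X n ⟶ tpow X n
  | 0, _ => 𝟙 _
  | n + 1, a => (((f ^ (a 0) : End X) : X ⟶ X) ▷ tpow X n) ≫ (X ◁ tens f n (fun i => a (i + 1)))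

/-- `tens f (n + 1)`. -/
def tn {X : T} (f : End X) (n : ℕ) (a : ℕ → ℕ) : X ⊗ tpow X n ⟶ X ⊗ tpow X n :=
  tens f (n + 1) a

theorem tens_succ {X : T} (f : End X) (n : ℕ) (a : ℕ → ℕ) : tens f (n + 1) a =
    (((f ^ (a 0) : End X) : X ⟶ X) ▷ tpow X n) ≫ (X ◁ tens f n (fun i => a (i + 1))) := rfl

theorem pow_comp {X : T} (f : End X) (a b : ℕ) :
    ((f ^ a : End X) : X ⟶ X) ≫ ((f ^ b : End X) : X ⟶ X) = (f ^ (a + b) : End X) := by
  rw [← End.mul_def, ← pow_add, add_comm]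

theorem D_tens {X : T} (f : End X) (k : ℕ) (n : ℕ) (a : ℕ → ℕ) :
    Dd ((f ^ k : End X) : X ⟶ X) n ≫ tens f n a =
      ∑ i ∈ Finset.range n, tens f n (Function.update a i (a i + k)) := by
  induction n generalizing a with
  | zero =>
    rw [Finset.range_zero, Finset.sum_empty]
    exact Limits.zero_comp
  | succ n ih =>
    refine gen6 ((f ^ k : End X) : X ⟶ X) ((f ^ (a 0) : End X) : X ⟶ X)
      (Dd ((f ^ k : End X) : X ⟶ X) n) (tens f n (fun i => a (i + 1))) n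
      (fun i => tens f n (Function.update (fun i => a (i + 1)) i (a (i + 1) + k)))
      (fun i => tens f (n + 1) (Function.update a i (a i + k))) ?_ ?_ (ih _)
    · have h1 : (fun i => Function.update a 0 (a 0 + k) (i + 1)) = fun i => a (i + 1) := by
        funext i
        exact Function.update_of_ne (Nat.succ_ne_zero i) _ _
      rw [pow_comp]
      change ((f ^ (Function.update a 0 (a 0 + k) 0) : End X) ▷ tpow X n) ≫
        (X ◁ tens f n (fun i => Function.update a 0 (a 0 + k) (i + 1))) = _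
      rw [h1, Function.update_self, add_comm]
    · intro i
      have h1 : (fun j => Function.update a (i + 1) (a (i + 1) + k) (j + 1)) =
          Function.update (fun i => a (i + 1)) i (a (i + 1) + k) := by
        funext j
        by_cases hj : j = i
        · subst hj
          rw [Function.update_self, Function.update_self]
        · rw [Function.update_of_ne hj, Function.update_of_ne (fun h => hj (Nat.succ_injective h))]
      change ((f ^ (Function.update a (i + 1) (a (i + 1) + k) 0) : End X) ▷ tpow X n) ≫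
        (X ◁ tens f n (fun j => Function.update a (i + 1) (a (i + 1) + k) (j + 1))) = _
      rw [h1, Function.update_of_ne (Nat.succ_ne_zero i).symm]

theorem sum_update (m : ℕ) (b : ℕ → ℕ) (k i : ℕ) (hi : i ∈ Finset.range m) :
    ∑ j ∈ Finset.range m, Function.update b i (b i + k) j = (∑ j ∈ Finset.range m, b j) + k := by
  have h : ∀ j, Function.update b i (b i + k) j = b j + if j = i then k else 0 := by
    intro j
    by_cases hj : j = i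
    · subst hj
      rw [Function.update_self, if_pos rfl]
    · rw [Function.update_of_ne hj, if_neg hj, add_zero]
  simp only [h]
  rw [Finset.sum_add_distrib, Finset.sum_ite_eq', if_pos hi]

end sym

section main

variable {T : Type u} [Category.{v} T] [MonoidalCategory T] [SymmetricCategory T]
  [RightRigidCategory T] [Preadditive T] [MonoidalPreadditive T]

/-- The iterated partial trace. -/
def Phi (X : T) : ∀ n : ℕ, (X ⊗ tpow X n ⟶ X ⊗ tpow X n) →+ (X ⊗ 𝟙_ T ⟶ X ⊗ 𝟙_ T)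
  | 0 => AddMonoidHom.id _
  | n + 1 => (Phi X n).comp (ptH X (X ⊗ tpow X n) (X ⊗ tpow X n))

theorem Phi_succ (X : T) (n : ℕ) (g : X ⊗ X ⊗ tpow X n ⟶ X ⊗ X ⊗ tpow X n) :
    Phi X (n + 1) g = Phi X n (pt X g) := rfl

theorem Phi_gs (ε : ℤ) (hε : ε * ε = 1) {X : T} (f : End X)
    (htr : ∀ k : ℕ, tr (X := X) (f ^ (k + 1) : End X) = 0) (n : ℕ) (a : ℕ → ℕ)
    (ha : ∀ i < n, 1 ≤ a i) :
    Phi X n (gs ε X n ≫ tn f n a) = (ε ^ n * (n.factorial : ℤ)) •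
      (((f ^ (∑ i ∈ Finset.range (n + 1), a i) : End X) : X ⟶ X) ▷ 𝟙_ T) := by
  induction n generalizing a with
  | zero =>
    have h : ((X ◁ 𝟙 (𝟙_ T)) ≫ 𝟙 (X ⊗ 𝟙_ T)) ≫ (((f ^ (a 0) : End X) : X ⟶ X) ▷ 𝟙_ T) ≫
        (X ◁ 𝟙 (𝟙_ T)) = (1 : ℤ) • (((f ^ (a 0) : End X) : X ⟶ X) ▷ 𝟙_ T) := by
      rw [MonoidalCategory.whiskerLeft_id, Category.comp_id, Category.id_comp, Category.comp_id,
        one_smul]
    rw [pow_zero, Nat.factorial_zero, Nat.cast_one, mul_one, Finset.sum_range_one]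
    exact h
  | succ n ih =>
    obtain ⟨k, hk⟩ : ∃ k, a 0 = k + 1 := ⟨a 0 - 1, by have := ha 0 (Nat.succ_pos n); omega⟩
    have h1 : Phi X (n + 1) (gs ε X (n + 1) ≫ tn f (n + 1) a) =
        Phi X n (ε • ((gs ε X n ≫ (((f ^ (a 0) : End X) : X ⟶ X) ▷ tpow X n) ≫ gins ε X n) ≫
          tn f n (fun i => a (i + 1)))) :=
      congrArg (Phi X n) (gen5 ε ((f ^ (a 0) : End X) : X ⟶ X) (by rw [hk]; exact htr k)
        (gs ε X n) (gins ε X n) (tn f n (fun i => a (i + 1))))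
    have h2 : Ds ((f ^ (a 0) : End X) : X ⟶ X) n ≫ tn f n (fun i => a (i + 1)) =
        ∑ i ∈ Finset.range (n + 1), tn f n (Function.update (fun i => a (i + 1)) i
          (a (i + 1) + a 0)) := D_tens f (a 0) (n + 1) (fun i => a (i + 1))
    rw [h1, gs_D ε hε, Category.assoc, h2, Preadditive.comp_sum, map_zsmul, map_sum]
    have h3 : ∀ i ∈ Finset.range (n + 1), Phi X n (gs ε X n ≫
        tn f n (Function.update (fun i => a (i + 1)) i (a (i + 1) + a 0))) =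
        (ε ^ n * (n.factorial : ℤ)) •
        (((f ^ (∑ i ∈ Finset.range (n + 1 + 1), a i) : End X) : X ⟶ X) ▷ 𝟙_ T) := by
      intro i hi
      rw [ih, sum_update (n + 1) (fun i => a (i + 1)) (a 0) i hi, Finset.sum_range_succ' a]
      intro j hj
      by_cases hji : j = i
      · subst hji
        rw [Function.update_self]
        have := ha (j + 1) (by omega)
        omega
      · rw [Function.update_of_ne hji]
        exact ha (j + 1) (by omega)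
    rw [Finset.sum_congr rfl h3, Finset.sum_const, Finset.card_range, ← natCast_zsmul, smul_smul,
      smul_smul]
    congr 1
    rw [Nat.factorial_succ, pow_succ]
    push_cast
    ring

/-- Kimura's nilpotence theorem: if the `(n + 1)`-st exterior (symmetric) power of `X` vanishes,
and the traces of all the positive powers of `f` are zero, then `f ^ n = 0`. -/
theorem kimura_nil (F : Type*) [Field F] [CharZero F] [Linear F T] (eps : ℤ)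
    (heps : eps * eps = 1) {X : T} (f : End X)
    (htr : ∀ k : ℕ, tr (X := X) (f ^ (k + 1) : End X) = 0) (n : ℕ)
    (h : gsym eps X (n + 1) = 0) : f ^ n = 0 := by
  have h1 := Phi_gs eps heps f htr n (fun i => if i < n then 1 else 0)
    (fun i hi => by simp [hi])
  have h2 : gs eps X n = 0 := h
  have h3 : ∑ i ∈ Finset.range (n + 1), (if i < n then 1 else 0) = n := by
    rw [Finset.sum_range_succ, if_neg (lt_irrefl n), add_zero,
      Finset.sum_congr rfl (fun i hi => if_pos (Finset.mem_range.1 hi))]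
    simp
  rw [h2, Limits.zero_comp, map_zero, h3] at h1
  have h4 : ((f ^ n : End X) : X ⟶ X) ▷ 𝟙_ T = 0 := by
    have h5 : ((eps ^ n * (n.factorial : ℤ) : ℤ) : F) • (((f ^ n : End X) : X ⟶ X) ▷ 𝟙_ T) = 0 := by
      rw [Int.cast_smul_eq_zsmul]
      exact h1.symm
    rcases smul_eq_zero.1 h5 with h6 | h6
    · exfalso
      rw [Int.cast_eq_zero] at h6
      rcases mul_eq_zero.1 h6 with h7 | h7
      · have h8 : eps = 0 := pow_eq_zero_iff (by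
          rintro rfl
          simp at h7) |>.1 h7
        rw [h8] at heps
        simp at heps
      · exact Nat.factorial_ne_zero n (by exact_mod_cast h7)
    · exact h6
  have h5 : ((f ^ n : End X) : X ⟶ X) = (ρ_ X).inv ≫ (((f ^ n : End X) : X ⟶ X) ▷ 𝟙_ T) ≫
      (ρ_ X).hom := by
    rw [rightUnitor_naturality, Iso.inv_hom_id_assoc]
  rw [h4, Limits.zero_comp, Limits.comp_zero] at h5
  exact h5

end main

end Pool.Agent.W225.KC
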